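import Mathlib
import Pool.Agent.H.MP_977787_an.A

set_option autoImplicit false

namespace Pool.Agent.Results.MP_977787_an.No

open MeasureTheory FourierTransform Real Set Filter Topology Pool.Agent.H.MP_977787_an
open scoped InnerProductSpace ENNReal

/-- `L^p` norm -/
noncomputable def N (p : ℝ≥0∞) (f : H) : ℝ≥0∞ := eLpNorm f p volume

/-- bounded from `L¹` to `L^∞` with norm at most `M` -/
def Bd (M : ℝ) (A : H → H) : Prop := ∀ f, N 1 f < ∞ → N ∞ (A f) ≤ .ofReal M * N 1 f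

/-- `B` is the adjoint of `A` -/
def Adj (A B : H → H) : Prop := ∀ f g, ⟪A f, g⟫_ℂ = ⟪f, B g⟫_ℂ

/-- bounded linear -/
def Lin (A : H → H) : Prop := IsLinearMap ℂ A ∧ Continuous A

/-- special `k`-Hadamard operator -/
def Special (k : ℝ) (A : H → H) : Prop :=
  Lin A ∧ Bd 1 A ∧ ∃ B, Lin B ∧ Adj A B ∧ (∀ f, B (A f) = (k : ℂ) • f ∧ A (B f) = (k : ℂ) • f) ∧ ∃ M, Bd M B

/-- admissible constant -/
def Adm (A : H → H) (p C : ℝ) : Prop :=
  0 < C ∧ ∀ f, f ≠ 0 → N (.ofReal p) f < ∞ → N (.ofReal p) (A f) < ∞ →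
    C ≤ (N (.ofReal p) f).toReal * (N (.ofReal p) (A f)).toReal / (‖f‖ * ‖A f‖)

theorem result : ∃ k > 0, ∃ A, Special k A ∧ ∀ σ ∈ Ioc (0 : ℝ) 1, ¬∃ C : ℝ → ℝ,
    (∀ p ∈ Ioc (2 - σ) 2, Adm A p (C p)) ∧ C 2 = 1 ∧ Tendsto C (𝓝[<] 2) (𝓝 1) ∧
      DifferentiableOn ℝ C (Ioo (2 - σ) 2) ∧ StrictAntiOn C (Ioo (2 - σ) 2) := by
  obtain ⟨D, d⟩ := exD (c := 2) two_ne_zero
  obtain ⟨E, e⟩ := exD (c := 2⁻¹) (by simp)
  have de : ∀ f, D (E f) = f := fun f => Lp.ext (by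
    filter_upwards [d (E f), (qm two_ne_zero).ae (e f)] with x a b
    simpa using a.trans b)
  have ed : ∀ f, E (D f) = f := fun f => Lp.ext (by
    filter_upwards [e (D f), (qm (c := 2⁻¹) (by simp)).ae (d f)] with x a b
    simpa using a.trans b)
  have di : ∀ f g, ⟪D f, D g⟫_ℂ = (2⁻¹ : ℝ) * ⟪f, g⟫_ℂ := fun f g => by
    have := Measure.integral_comp_mul_left (fun x => ⟪f x, g x⟫_ℂ) 2
    rw [abs_of_pos (by simp)] at this
    exact (integral_congr_ae (by filter_upwards [d f, d g] with x a b; rw [a, b]; rfl)).trans this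
  let F := Lp.fourierTransformₗᵢ ℝ ℂ
  have m : ∀ {p} {f : H}, N p f < ∞ → MemLp f p := fun h => ⟨Lp.aestronglyMeasurable _, h⟩
  refine ⟨2⁻¹, by simp, fun f => D (F f), ⟨⟨⟨by simp, by simp⟩, by fun_prop⟩,
    fun f h => ?_, fun f => ((2⁻¹ : ℝ) : ℂ) • F.symm (E f), ⟨⟨by simp, fun c f => by simp [smul_comm c]⟩, by fun_prop⟩, fun f g => ?_,
    fun f => by simp [ed, de], 1, fun f h => ?_⟩, ?_⟩
  · rw [ENNReal.ofReal_one, one_mul]
    refine le_trans (le_of_eq ?_) (bd f (F f) (m h) _ (four f (m h)))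
    rw [N, eLpNorm_congr_ae (d _), ← eLpNorm_map_measure
      ((Lp.aestronglyMeasurable _).mono_ac (qm two_ne_zero).absolutelyContinuous) (by fun_prop),
      map_volume_mul_left two_ne_zero, eLpNorm_exponent_top, eLpNorm_exponent_top,
      eLpNormEssSup_ennreal_smul_measure (by simp)]
  · beta_reduce
    rw [← de g, di, ed, inner_smul_right, ← F.inner_map_map f, F.apply_symm_apply]
  · have := bdi (E f) ((dm (by simp) (m h)).ae_eq (e f).symm)
    rw [eLpNorm_congr_ae (e f), dil (by simp) f (Lp.aestronglyMeasurable f) 1 (by simp)] at this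
    rw [N, eLpNorm_congr_ae (Lp.coeFn_smul _ _), eLpNorm_const_smul]
    refine (mul_le_mul_right this _).trans_eq ?_
    rw [← mul_assoc, N]
    congr 1
    simp [← ofReal_norm, ENNReal.ofReal_inv_of_pos, ENNReal.inv_mul_cancel]
  rintro σ ⟨s0, s1⟩ ⟨C, c1, -, c2, -, c3⟩
  have i : ∀ t, 0 < t → t < 1 → 2 - t * σ ∈ Ioo (2 - σ) 2 := fun t a b => ⟨by nlinarith, by nlinarith⟩
  have l : 1 < C (2 - 2⁻¹ * σ) := by
    refine lt_of_le_of_lt (le_of_tendsto c2 ?_) (c3 (i _ (by norm_num) (by norm_num))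
      (i 4⁻¹ (by norm_num) (by norm_num)) (by linarith))
    filter_upwards [Ioo_mem_nhdsLT (i 4⁻¹ (by norm_num) (by norm_num)).2] with x hx
    exact (c3 (i 4⁻¹ (by norm_num) (by norm_num)) ⟨by linarith [hx.1], hx.2⟩ hx.1).le
  have j := i 2⁻¹ (by norm_num) (by norm_num)
  generalize 2 - 2⁻¹ * σ = p at l j
  have p1 : 1 < p := by linarith [j.1]
  have p0 : 0 < p := by linarith
  have t : ENNReal.ofReal 2 = 2 := by simp
  have g2 := (gm one_pos two_pos).1
  rw [t] at g2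
  let g : H := g2.toLp
  have a : g =ᵐ[volume] _ := g2.coeFn_toLp
  have b : D (F g) =ᵐ[volume] fun x : ℝ => Complex.exp (-π * (4 : ℝ) * x ^ 2) := by
    have := four g (by simpa using (gm one_pos one_pos).1.ae_eq a.symm)
    filter_upwards [d (F g), (qm two_ne_zero).ae this] with x u v
    rw [u.trans v, fourier_congr_ae a, congrFun (fourier_gaussian_pi (b := (1 : ℝ)) (by simp)) (2 * x)]
    simp
    ring_nf
  have n : ∀ {h : H} {c : ℝ}, 0 < c → (h =ᵐ[volume] fun x : ℝ => Complex.exp (-π * c * x ^ 2)) →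
      N (.ofReal p) h < ∞ ∧ (N (.ofReal p) h).toReal = (c * p) ^ (-(2 * p)⁻¹) ∧
        ‖h‖ = (c * 2) ^ (-(2 * 2 : ℝ)⁻¹) := fun c0 h => by
    rw [N, Lp.norm_def, eLpNorm_congr_ae h, eLpNorm_congr_ae h, ← t]
    exact ⟨(gm c0 p0).1.2, (gm c0 p0).2, (gm c0 two_pos).2⟩
  obtain ⟨u1, u2, u3⟩ := n one_pos a
  obtain ⟨v1, v2, v3⟩ := n four_pos b
  have := (c1 p ⟨j.1, j.2.le⟩).2 g (norm_pos_iff.1 (by rw [u3]; positivity)) u1 v1
  rw [u2, u3, v2, v3, ← mul_rpow (by positivity) (by positivity), ← mul_rpow (by positivity) (by positivity),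
    show 1 * p * (4 * p) = (2 * p) ^ (2 : ℝ) by norm_cast; ring,
    show 1 * 2 * (4 * 2) = (2 : ℝ) ^ (4 : ℝ) by norm_num, ← rpow_mul (by positivity),
    ← rpow_mul (by positivity)] at this
  refine (l.trans_le this).not_ge ((div_le_one (by positivity)).2 ?_)
  have k : (2 : ℝ) ^ p ≤ 2 * p := by
    have := (convexOn_rpow_left (b := 2) two_pos).2 (mem_univ 1) (mem_univ 2)
      (show 0 ≤ 2 - p by linarith [j.2]) (show 0 ≤ p - 1 by linarith) (by ring)
    norm_num at this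
    ring_nf at this ⊢
    exact this
  refine (rpow_le_rpow_of_nonpos (by positivity) k (by
    have : 0 < (2 * p)⁻¹ := by positivity
    linarith)).trans_eq ?_
  rw [← rpow_mul (by positivity)]
  congr 1
  field_simp
  norm_num

end Pool.Agent.Results.MP_977787_an.No
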